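import Pool.Agent.W802.BA.Stms

/-! BA-BLOCK: the form of the certificate is nonnegative at the true lengths. -/

set_option autoImplicit false

namespace Pool.Agent.W363.BA

open Pool.Agent.W779.Morrey Pool.Agent.W802.BA

/-- a rotation which makes two complex numbers of the same modulus conjugate -/
lemma exists_rot (K1 K2 L1 L2 : ℝ) (h : K1 ^ 2 + K2 ^ 2 = L1 ^ 2 + L2 ^ 2) :
    ∃ c d : ℝ, c ^ 2 + d ^ 2 = 1 ∧ c * K1 - d * K2 = c * L1 - d * L2 ∧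
      d * K1 + c * K2 = -(d * L1 + c * L2) := by
  by_cases hK : K1 ^ 2 + K2 ^ 2 = 0
  · have h1 : K1 = 0 := by nlinarith [sq_nonneg K1, sq_nonneg K2]
    have h2 : K2 = 0 := by nlinarith [sq_nonneg K1, sq_nonneg K2]
    have h3 : L1 = 0 := by nlinarith [sq_nonneg L1, sq_nonneg L2]
    have h4 : L2 = 0 := by nlinarith [sq_nonneg L1, sq_nonneg L2]
    exact ⟨1, 0, by norm_num, by rw [h1, h2, h3, h4], by rw [h1, h2, h3, h4]; norm_num⟩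
  · let K : ℂ := ⟨K1, K2⟩
    let L : ℂ := ⟨L1, -L2⟩
    have hK0 : K ≠ 0 := by
      intro h0
      apply hK
      have h1 : K1 = 0 := congrArg Complex.re h0
      have h2 : K2 = 0 := congrArg Complex.im h0
      rw [h1, h2]
      norm_num
    obtain ⟨z, hz⟩ := IsAlgClosed.exists_pow_nat_eq (L / K) (n := 2) (by norm_num)
    have hz1 : z ^ 2 * K = L := by
      rw [hz, div_mul_cancel₀ _ hK0]
    have hnK : Complex.normSq K = K1 ^ 2 + K2 ^ 2 := by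
      rw [Complex.normSq_apply]
      ring
    have hnL : Complex.normSq L = L1 ^ 2 + L2 ^ 2 := by
      rw [Complex.normSq_apply]
      ring
    have hn : Complex.normSq z ^ 2 * (K1 ^ 2 + K2 ^ 2) = K1 ^ 2 + K2 ^ 2 := by
      have := congrArg Complex.normSq hz1
      rw [map_mul, map_pow, hnK, hnL, ← h] at this
      exact this
    have hn1 : Complex.normSq z ^ 2 = 1 := by
      have := mul_right_cancel₀ hK (hn.trans (one_mul _).symm)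
      exact this
    have hn2 : Complex.normSq z = 1 := by
      have h0 := Complex.normSq_nonneg z
      nlinarith
    have hn3 : z.re ^ 2 + z.im ^ 2 = 1 := by
      rw [← hn2, Complex.normSq_apply]
      ring
    have hre : (z.re ^ 2 - z.im ^ 2) * K1 - 2 * z.re * z.im * K2 = L1 := by
      have := congrArg Complex.re hz1
      rw [pow_two, Complex.mul_re, Complex.mul_re, Complex.mul_im] at this
      change _ * K1 - _ * K2 = L1 at this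
      linear_combination this
    have him : 2 * z.re * z.im * K1 + (z.re ^ 2 - z.im ^ 2) * K2 = -L2 := by
      have := congrArg Complex.im hz1
      rw [pow_two, Complex.mul_im, Complex.mul_re, Complex.mul_im] at this
      change _ * K2 + _ * K1 = -L2 at this
      linear_combination this
    refine ⟨z.re, z.im, hn3, ?_, ?_⟩
    · have e2 : L2 = -(2 * z.re * z.im * K1 + (z.re ^ 2 - z.im ^ 2) * K2) := by linarith
      rw [← hre, e2]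
      linear_combination (-(z.re * K1) + z.im * K2) * hn3
    · have e2 : L2 = -(2 * z.re * z.im * K1 + (z.re ^ 2 - z.im ^ 2) * K2) := by linarith
      rw [← hre, e2]
      linear_combination (-(z.im * K1) - z.re * K2) * hn3

theorem block : S_Block := by
  intro fs ft fss fst ftt α αs αt β βs βt s t F G₀ G₁ hs ht hQ hsF htF hc
  have hs0 : s ≠ 0 := hs.ne'
  have ht0 : t ≠ 0 := ht.ne'
  -- coordinates
  obtain ⟨A1, hA1⟩ : ∃ v, v = a1 F := ⟨_, rfl⟩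
  obtain ⟨A2, hA2⟩ : ∃ v, v = a2 F := ⟨_, rfl⟩
  obtain ⟨B1, hB1⟩ : ∃ v, v = b1 F := ⟨_, rfl⟩
  obtain ⟨B2, hB2⟩ : ∃ v, v = b2 F := ⟨_, rfl⟩
  obtain ⟨p0, hp0⟩ : ∃ v, v = a1 G₀ := ⟨_, rfl⟩
  obtain ⟨q0, hq0⟩ : ∃ v, v = a2 G₀ := ⟨_, rfl⟩
  obtain ⟨r0, hr0⟩ : ∃ v, v = b1 G₀ := ⟨_, rfl⟩
  obtain ⟨u0, hu0⟩ : ∃ v, v = b2 G₀ := ⟨_, rfl⟩
  obtain ⟨p1, hp1⟩ : ∃ v, v = a1 G₁ := ⟨_, rfl⟩
  obtain ⟨q1, hq1⟩ : ∃ v, v = a2 G₁ := ⟨_, rfl⟩
  obtain ⟨r1, hr1⟩ : ∃ v, v = b1 G₁ := ⟨_, rfl⟩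
  obtain ⟨u1, hu1⟩ : ∃ v, v = b2 G₁ := ⟨_, rfl⟩
  have hS : s ^ 2 = A1 ^ 2 + A2 ^ 2 := by rw [hsF, pP, hA1, hA2]
  have hT : t ^ 2 = B1 ^ 2 + B2 ^ 2 := by rw [htF, pQ, hB1, hB2]
  have hc1 : p0 - q1 = r0 + u1 := by
    rw [hp0, hq1, hr0, hu1, a1_apply, a2_apply, b1_apply, b2_apply]
    have := hc 1
    linarith
  have hc2 : q0 + p1 = u0 - r1 := by
    rw [hq0, hp1, hu0, hr1, a1_apply, a2_apply, b1_apply, b2_apply]
    have := hc 0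
    linarith
  obtain ⟨x0, hx0⟩ : ∃ v, v = (A1 * p0 + A2 * q0) / s := ⟨_, rfl⟩
  obtain ⟨x1, hx1⟩ : ∃ v, v = (A1 * p1 + A2 * q1) / s := ⟨_, rfl⟩
  obtain ⟨y0, hy0⟩ : ∃ v, v = (A1 * q0 - A2 * p0) / s := ⟨_, rfl⟩
  obtain ⟨y1, hy1⟩ : ∃ v, v = (A1 * q1 - A2 * p1) / s := ⟨_, rfl⟩
  obtain ⟨z0, hz0⟩ : ∃ v, v = (B1 * r0 + B2 * u0) / t := ⟨_, rfl⟩
  obtain ⟨z1, hz1⟩ : ∃ v, v = (B1 * r1 + B2 * u1) / t := ⟨_, rfl⟩
  obtain ⟨w0, hw0⟩ : ∃ v, v = (B1 * u0 - B2 * r0) / t := ⟨_, rfl⟩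
  obtain ⟨w1, hw1⟩ : ∃ v, v = (B1 * u1 - B2 * r1) / t := ⟨_, rfl⟩
  have hx0' : s * x0 = A1 * p0 + A2 * q0 := by rw [hx0, mul_div_cancel₀ _ hs0]
  have hx1' : s * x1 = A1 * p1 + A2 * q1 := by rw [hx1, mul_div_cancel₀ _ hs0]
  have hy0' : s * y0 = A1 * q0 - A2 * p0 := by rw [hy0, mul_div_cancel₀ _ hs0]
  have hy1' : s * y1 = A1 * q1 - A2 * p1 := by rw [hy1, mul_div_cancel₀ _ hs0]
  have hz0' : t * z0 = B1 * r0 + B2 * u0 := by rw [hz0, mul_div_cancel₀ _ ht0]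
  have hz1' : t * z1 = B1 * r1 + B2 * u1 := by rw [hz1, mul_div_cancel₀ _ ht0]
  have hw0' : t * w0 = B1 * u0 - B2 * r0 := by rw [hw0, mul_div_cancel₀ _ ht0]
  have hw1' : t * w1 = B1 * u1 - B2 * r1 := by rw [hw1, mul_div_cancel₀ _ ht0]
  -- Lagrange identities
  have hs2 : s ^ 2 ≠ 0 := pow_ne_zero _ hs0
  have ht2 : t ^ 2 ≠ 0 := pow_ne_zero _ ht0
  have hPG0 : p0 ^ 2 + q0 ^ 2 = x0 ^ 2 + y0 ^ 2 := by
    apply mul_left_cancel₀ hs2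
    have : s ^ 2 * (x0 ^ 2 + y0 ^ 2) = (s * x0) ^ 2 + (s * y0) ^ 2 := by ring
    rw [this, hx0', hy0', hS]
    ring
  have hPG1 : p1 ^ 2 + q1 ^ 2 = x1 ^ 2 + y1 ^ 2 := by
    apply mul_left_cancel₀ hs2
    have : s ^ 2 * (x1 ^ 2 + y1 ^ 2) = (s * x1) ^ 2 + (s * y1) ^ 2 := by ring
    rw [this, hx1', hy1', hS]
    ring
  have hQG0 : r0 ^ 2 + u0 ^ 2 = z0 ^ 2 + w0 ^ 2 := by
    apply mul_left_cancel₀ ht2
    have : t ^ 2 * (z0 ^ 2 + w0 ^ 2) = (t * z0) ^ 2 + (t * w0) ^ 2 := by ring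
    rw [this, hz0', hw0', hT]
    ring
  have hQG1 : r1 ^ 2 + u1 ^ 2 = z1 ^ 2 + w1 ^ 2 := by
    apply mul_left_cancel₀ ht2
    have : t ^ 2 * (z1 ^ 2 + w1 ^ 2) = (t * z1) ^ 2 + (t * w1) ^ 2 := by ring
    rw [this, hz1', hw1', hT]
    ring
  have hWA : p0 * q1 - q0 * p1 = x0 * y1 - y0 * x1 := by
    apply mul_left_cancel₀ hs2
    have : s ^ 2 * (x0 * y1 - y0 * x1) = (s * x0) * (s * y1) - (s * y0) * (s * x1) := by ring
    rw [this, hx0', hy0', hx1', hy1', hS]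
    ring
  have hWB : r0 * u1 - u0 * r1 = z0 * w1 - w0 * z1 := by
    apply mul_left_cancel₀ ht2
    have : t ^ 2 * (z0 * w1 - w0 * z1) = (t * z0) * (t * w1) - (t * w0) * (t * z1) := by ring
    rw [this, hz0', hw0', hz1', hw1', hT]
    ring
  -- the lengths of the two complex numbers
  have hKL : (x0 - y1) ^ 2 + (x1 + y0) ^ 2 = (z0 + w1) ^ 2 + (z1 - w0) ^ 2 := by
    have e1 : (x0 - y1) ^ 2 + (x1 + y0) ^ 2 = (p0 - q1) ^ 2 + (q0 + p1) ^ 2 := by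
      linear_combination -hPG0 - hPG1 + 2 * hWA
    have e2 : (z0 + w1) ^ 2 + (z1 - w0) ^ 2 = (r0 + u1) ^ 2 + (u0 - r1) ^ 2 := by
      linear_combination -hQG0 - hQG1 - 2 * hWB
    rw [e1, e2, hc1, hc2]
  obtain ⟨c, d, hcd, h1, h2⟩ := exists_rot (x0 - y1) (x1 + y0) (z0 + w1) (z1 - w0) hKL
  have hJ : J fs ft fss fst ftt α αs αt β βs βt s t F G₀ G₁ =
      Q4 fs ft fss fst ftt α αs αt β βs βt s t x0 y1 z0 w1 +
      Q4 fs ft fss fst ftt α αs αt β βs βt s t x1 (-y0) z1 (-w0) := by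
    have e1 : da F G₀ / s = x0 := by rw [da, ← hA1, ← hA2, ← hp0, ← hq0, hx0]
    have e2 : da F G₁ / s = x1 := by rw [da, ← hA1, ← hA2, ← hp1, ← hq1, hx1]
    have e3 : db F G₀ / t = z0 := by rw [db, ← hB1, ← hB2, ← hr0, ← hu0, hz0]
    have e4 : db F G₁ / t = z1 := by rw [db, ← hB1, ← hB2, ← hr1, ← hu1, hz1]
    have e5 : pP G₀ = x0 ^ 2 + y0 ^ 2 := by rw [pP, ← hp0, ← hq0, hPG0]
    have e6 : pP G₁ = x1 ^ 2 + y1 ^ 2 := by rw [pP, ← hp1, ← hq1, hPG1]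
    have e7 : pQ G₀ = z0 ^ 2 + w0 ^ 2 := by rw [pQ, ← hr0, ← hu0, hQG0]
    have e8 : pQ G₁ = z1 ^ 2 + w1 ^ 2 := by rw [pQ, ← hr1, ← hu1, hQG1]
    have e9 : wa F G₁ = s * y1 := by rw [wa, ← hA1, ← hA2, ← hp1, ← hq1, hy1']
    have e10 : wa F G₀ = s * y0 := by rw [wa, ← hA1, ← hA2, ← hp0, ← hq0, hy0']
    have e11 : wb F G₁ = t * w1 := by rw [wb, ← hB1, ← hB2, ← hr1, ← hu1, hw1']
    have e12 : wb F G₀ = t * w0 := by rw [wb, ← hB1, ← hB2, ← hr0, ← hu0, hw0']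
    have e13 : wa G₀ G₁ = x0 * y1 - y0 * x1 := by rw [wa, ← hp0, ← hp1, ← hq0, ← hq1, hWA]
    have e14 : wb G₀ G₁ = z0 * w1 - w0 * z1 := by rw [wb, ← hr0, ← hr1, ← hu0, ← hu1, hWB]
    rw [J, H2, H2, T2, e1, e2, e3, e4, e5, e6, e7, e8, e9, e10, e11, e12, e13, e14, Q4, Q4]
    ring
  have hrot : Q4 fs ft fss fst ftt α αs αt β βs βt s t x0 y1 z0 w1 +
      Q4 fs ft fss fst ftt α αs αt β βs βt s t x1 (-y0) z1 (-w0) =
      Q4 fs ft fss fst ftt α αs αt β βs βt s t (c * x0 - d * x1) (c * y1 - d * (-y0))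
        (c * z0 - d * z1) (c * w1 - d * (-w0)) +
      Q4 fs ft fss fst ftt α αs αt β βs βt s t (d * x0 + c * x1) (d * y1 + c * (-y0))
        (d * z0 + c * z1) (d * w1 + c * (-w0)) := by
    have key : Q4 fs ft fss fst ftt α αs αt β βs βt s t (c * x0 - d * x1) (c * y1 - d * (-y0))
        (c * z0 - d * z1) (c * w1 - d * (-w0)) +
      Q4 fs ft fss fst ftt α αs αt β βs βt s t (d * x0 + c * x1) (d * y1 + c * (-y0))
        (d * z0 + c * z1) (d * w1 + c * (-w0)) =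
      (c ^ 2 + d ^ 2) * (Q4 fs ft fss fst ftt α αs αt β βs βt s t x0 y1 z0 w1 +
      Q4 fs ft fss fst ftt α αs αt β βs βt s t x1 (-y0) z1 (-w0)) := by
      simp only [Q4]
      ring
    rw [key, hcd, one_mul]
  rw [hJ, hrot]
  apply add_nonneg
  · apply hQ
    right
    linear_combination -h1
  · apply hQ
    left
    linear_combination -h2

end Pool.Agent.W363.BA
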